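import Pool.Agent.H6.FC.Targets

/-!
Row N53 of the board cfp_modules (`MP_7500ea_al`): a numerical inequality.
-/

set_option autoImplicit false

namespace Pool.Agent.H78.FC



lemma n53_c : (24 : ℝ) ^ ((1 : ℝ) / 3) ≤ 2885 / 1000 := by
  have h0 : (0 : ℝ) ≤ (24 : ℝ) ^ ((1 : ℝ) / 3) := by positivity
  have h1 : ((24 : ℝ) ^ ((1 : ℝ) / 3)) ^ 3 = 24 := by
    rw [← Real.rpow_natCast, ← Real.rpow_mul (by norm_num)]
    norm_num
  by_contra h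
  push Not at h
  have h2 : (2885 / 1000 : ℝ) ^ 3 < ((24 : ℝ) ^ ((1 : ℝ) / 3)) ^ 3 :=
    pow_lt_pow_left₀ h (by norm_num) (by norm_num)
  rw [h1] at h2
  norm_num at h2

theorem pf_N53 : FI.T_N53 := by
  intro p hp
  have hx : (53 : ℝ) ≤ p := by exact_mod_cast hp
  have h4 : (((p : ℝ) - 1) / 2) ^ (4 : ℝ) = (((p : ℝ) - 1) / 2) ^ 4 := by
    rw [show (4 : ℝ) = ((4 : ℕ) : ℝ) by norm_num, Real.rpow_natCast]
  rw [h4]
  generalize (p : ℝ) = x at hx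
  have hpos : 0 ≤ x * (x ^ 2 - 1) := by nlinarith
  have h1 : (24 : ℝ) ^ ((1 : ℝ) / 3) * (x * (x ^ 2 - 1)) ≤ 2885 / 1000 * (x * (x ^ 2 - 1)) :=
    mul_le_mul_of_nonneg_right n53_c hpos
  refine h1.trans ?_
  have h2 : 16 * (2885 / 1000) * (x * (x + 1)) ≤ (x - 1) ^ 3 := by
    obtain ⟨y, rfl⟩ : ∃ y, x = y + 53 := ⟨x - 53, by ring⟩
    have hy : 0 ≤ y := by linarith
    nlinarith [mul_nonneg hy hy, mul_nonneg hy (mul_nonneg hy hy)]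
  have h3 : 0 ≤ x - 1 := by linarith
  nlinarith [mul_le_mul_of_nonneg_left h2 h3]

end Pool.Agent.H78.FC
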