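import Pool.Agent.H89.FC.Targets

/-!
# The angular factor with complex parameters (row KAN)
-/

set_option autoImplicit false

open MeasureTheory Set Filter
open scoped Real Matrix MatrixGroups

namespace Pool.Agent.H78.FC

open Pool.Agent.H31.CN Pool.Agent.H89.FM Pool.Agent.H89.FC

/-- powers of a number whose absolute value is near `1` -/
theorem norm_zpow_le_three {a : ℂ} {c : ℝ} (hc : 0 ≤ c) (h1 : ‖a‖ ≤ 1 + c) (h2 : ‖a‖⁻¹ ≤ 1 + c)
    (m : ℤ) (hm : |(m : ℝ)| * c ≤ 1) : ‖a ^ m‖ ≤ 3 := by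
  have key : ∀ n : ℕ, (n : ℝ) * c ≤ 1 → (1 + c) ^ n ≤ 3 := by
    intro n hn
    have h3 : 1 + c ≤ Real.exp c := by
      have := Real.add_one_le_exp c
      linarith
    calc (1 + c) ^ n ≤ (Real.exp c) ^ n := pow_le_pow_left₀ (by linarith) h3 n
      _ = Real.exp (n * c) := (Real.exp_nat_mul c n).symm
      _ ≤ Real.exp 1 := Real.exp_le_exp.2 hn
      _ ≤ 3 := by have := Real.exp_one_lt_d9; linarith
  rw [norm_zpow]
  obtain ⟨n, rfl | rfl⟩ := m.eq_nat_or_neg
  · rw [zpow_natCast]
    refine (pow_le_pow_left₀ (norm_nonneg _) h1 n).trans (key n ?_)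
    simpa using hm
  · rw [zpow_neg, zpow_natCast, ← inv_pow]
    refine (pow_le_pow_left₀ (inv_nonneg.2 (norm_nonneg _)) h2 n).trans (key n ?_)
    simpa using hm

/-- comparison of the two factors -/
theorem norm_le_of_near {A B : ℂ} {δ M : ℝ} (h : ‖A - (starRingEnd ℂ) B‖ ≤ δ * M) (hB : M ≤ ‖B‖)
    (hδ : 0 ≤ δ) : ‖A‖ ≤ (1 + δ) * ‖B‖ := by
  have h1 : ‖A‖ ≤ ‖A - (starRingEnd ℂ) B‖ + ‖(starRingEnd ℂ) B‖ := by
    have := norm_add_le (A - (starRingEnd ℂ) B) ((starRingEnd ℂ) B)
    rwa [sub_add_cancel] at this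
  rw [Complex.norm_conj] at h1
  have h2 : δ * M ≤ δ * ‖B‖ := mul_le_mul_of_nonneg_left hB hδ
  linarith

theorem pf_ANB : T_ANB := by
  intro ρ t m x y v hρ hR hv
  obtain ⟨-, hy1, -, hx2, hy2⟩ := hR
  set M : ℝ := |t| + |(m : ℝ)| with hM
  have hM0 : 0 ≤ M := by positivity
  rw [abs_of_nonneg hM0] at hx2 hy2
  have hx3 : |x.im| * 2000 < ρ := by nlinarith [abs_nonneg x.im]
  have hxl := neg_abs_le x.im
  have hxu := le_abs_self x.im
  set A : ℂ := (v.1 : ℂ) + v.2 * (x + y * Complex.I) with hA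
  set B : ℂ := (v.1 : ℂ) + v.2 * (x - y * Complex.I) with hB
  have hAim : A.im = v.2 * (x.im + y.re) := by
    rw [hA]; simp
  have hBim : B.im = v.2 * (x.im - y.re) := by
    rw [hB]; simp
  have hAre : A.re = v.1 + v.2 * (x.re - y.im) := by
    rw [hA]; simp; left; ring
  have hBre : B.re = v.1 + v.2 * (x.re + y.im) := by
    rw [hB]; simp
  have hne : A ≠ 0 ∧ B ≠ 0 ∧ ‖an x y v ^ m‖ ≤ 3 := by
    by_cases h2 : v.2 = 0
    · have h1 : v.1 ≠ 0 := fun h1 => hv (Prod.ext h1 h2)
      have hA1 : A = (v.1 : ℂ) := by rw [hA, h2]; simp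
      have hB1 : B = (v.1 : ℂ) := by rw [hB, h2]; simp
      have h3 : (v.1 : ℂ) ≠ 0 := by exact_mod_cast h1
      refine ⟨hA1 ▸ h3, hB1 ▸ h3, ?_⟩
      have h4 : an x y v = 1 := by
        show A / B = 1
        rw [hA1, hB1, div_self h3]
      rw [h4, one_zpow, norm_one]
      norm_num
    · have h3 : (0 : ℝ) < |(v.2 : ℝ)| := by
        rw [abs_pos]
        exact_mod_cast h2
      set w : ℝ := |(v.2 : ℝ)| with hw
      have hAn : w * (ρ * (199 / 2000)) ≤ ‖A‖ := by
        refine le_trans ?_ (Complex.abs_im_le_norm A)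
        rw [hAim, abs_mul]
        refine mul_le_mul_of_nonneg_left ?_ h3.le
        refine le_trans ?_ (le_abs_self _)
        linarith
      have hBn : w * (ρ * (199 / 2000)) ≤ ‖B‖ := by
        refine le_trans ?_ (Complex.abs_im_le_norm B)
        rw [hBim, abs_mul]
        refine mul_le_mul_of_nonneg_left ?_ h3.le
        refine le_trans ?_ (neg_le_abs _)
        linarith
      have hpos : 0 < w * (ρ * (199 / 2000)) := by positivity
      have hAp : 0 < ‖A‖ := lt_of_lt_of_le hpos hAn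
      have hBp : 0 < ‖B‖ := lt_of_lt_of_le hpos hBn
      have hdiff : ‖A - (starRingEnd ℂ) B‖ ≤ 1 / (40 * (1 + M)) * (w * (ρ * (199 / 2000))) := by
        have e : A - (starRingEnd ℂ) B = ((v.2 : ℝ) : ℂ) * (((-(2 * y.im) : ℝ) : ℂ) +
            ((2 * x.im : ℝ) : ℂ) * Complex.I) := by
          apply Complex.ext
          · rw [Complex.sub_re, Complex.conj_re, hAre, hBre]
            simp
            ring
          · rw [Complex.sub_im, Complex.conj_im, hAim, hBim]
            simp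
            ring
        have h5 : ‖((-(2 * y.im) : ℝ) : ℂ) + ((2 * x.im : ℝ) : ℂ) * Complex.I‖ ≤
            2 * |y.im| + 2 * |x.im| := by
          refine (norm_add_le _ _).trans ?_
          rw [norm_mul, Complex.norm_I, mul_one, Complex.norm_real, Complex.norm_real,
            Real.norm_eq_abs, Real.norm_eq_abs, abs_neg, abs_mul, abs_mul, abs_two]
        rw [e, norm_mul, Complex.norm_real, Real.norm_eq_abs, ← hw]
        have h6 : (2 * |y.im| + 2 * |x.im|) * (40 * (1 + M)) ≤ ρ * (199 / 2000) := by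
          nlinarith
        have h7 : 2 * |y.im| + 2 * |x.im| ≤ 1 / (40 * (1 + M)) * (ρ * (199 / 2000)) := by
          rw [one_div, inv_mul_eq_div, le_div_iff₀ (by positivity)]
          exact h6
        calc w * ‖((-(2 * y.im) : ℝ) : ℂ) + ((2 * x.im : ℝ) : ℂ) * Complex.I‖ ≤
            w * (1 / (40 * (1 + M)) * (ρ * (199 / 2000))) :=
              mul_le_mul_of_nonneg_left (h5.trans h7) h3.le
          _ = _ := by ring
      have hdiff' : ‖B - (starRingEnd ℂ) A‖ ≤ 1 / (40 * (1 + M)) * (w * (ρ * (199 / 2000))) := by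
        have e : B - (starRingEnd ℂ) A = -(starRingEnd ℂ) (A - (starRingEnd ℂ) B) := by
          rw [map_sub, Complex.conj_conj]
          ring
        rw [e, norm_neg, Complex.norm_conj]
        exact hdiff
      have hc0 : 0 ≤ 1 / (40 * (1 + M)) := by positivity
      have hAB := norm_le_of_near hdiff hBn hc0
      have hBA := norm_le_of_near hdiff' hAn hc0
      refine ⟨norm_pos_iff.1 hAp, norm_pos_iff.1 hBp, ?_⟩
      refine norm_zpow_le_three (c := 1 / (40 * (1 + M))) hc0 ?_ ?_ m ?_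
      · show ‖A / B‖ ≤ _
        rw [norm_div, div_le_iff₀ hBp]
        exact hAB
      · show ‖A / B‖⁻¹ ≤ _
        rw [norm_div, inv_div, div_le_iff₀ hAp]
        exact hBA
      · rw [mul_one_div, div_le_iff₀ (by positivity)]
        have : |(m : ℝ)| ≤ M := by
          rw [hM]
          have := abs_nonneg t
          linarith
        linarith
  obtain ⟨hA0, hB0, hn⟩ := hne
  have han : an x y v ≠ 0 := div_ne_zero hA0 hB0
  refine ⟨hA0, hB0, hn, ?_, ?_⟩
  · have hd : DifferentiableAt ℂ (fun x' : ℂ => an x' y v) x := by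
      unfold Pool.Agent.H89.FC.an
      refine DifferentiableAt.div ?_ ?_ hB0
      · fun_prop
      · fun_prop
    exact hd.zpow (Or.inl han)
  · have hd : DifferentiableAt ℂ (fun y' : ℂ => an x y' v) y := by
      unfold Pool.Agent.H89.FC.an
      refine DifferentiableAt.div ?_ ?_ hB0
      · fun_prop
      · fun_prop
    exact hd.zpow (Or.inl han)

end Pool.Agent.H78.FC
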